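import Pool.Agent.Helper71.ISL.Defs

/-! # Project ISL, module KZ: the assembled kernel -/

set_option autoImplicit false

open Set Filter Topology
open scoped ContDiff ComplexConjugate

noncomputable section

namespace Pool.Agent.Helper51.ISL

open Pool.Agent.Helper71.ISL Pool.Agent.Helper71.UN

variable {β : ℂ} {Γ : ℤ → ℂ → Prop} {S : Finset ℤ} {m : ℤ} {r₁ r₂ ρ₀ ρ₁ : ℝ}
  {R : ℤ → ℂ → ℂ → ℝ} {Λ : Finset ℂ} {u : ℂ} {f g : ℂ → ℝ}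

/-- The sign of a label. -/
def sg (l : ℤ) : ℝ := (if l = 0 then 1 else 0) - (if l = 1 then 1 else 0)

theorem EE_out (hP : Par β Γ m r₁ r₂ ρ₀ ρ₁ u) (hC : Cut ρ₀ ρ₁ f g) (hI : IslK Γ S m r₁ r₂ R Λ)
    {x : ℂ} (hx : x ∉ ZZ ρ₀ ρ₁ r₂ u) (l : ℤ) (v : ℂ) :
    EE f g u R m l x v = if v = 0 ∧ ‖x‖ < ρ₀ then sg l else 0 := by
  have h1 : ¬ (ρ₀ ≤ ‖x‖ ∧ ‖x‖ ≤ ρ₁) := fun h => hx (Or.inl h)
  have h2 : r₂ < ‖x - u‖ := by
    by_contra h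
    exact hx (Or.inr (not_lt.1 h))
  have h3 : ρ₁ ≤ ‖x - u‖ := by linarith [hP.inn, hP.r12]
  have h4 := hC.fo _ h3
  unfold EE ci
  rw [hI.outer _ h2, h4.1, h4.2]
  by_cases h5 : ‖x‖ < ρ₀
  · have h6 := hC.fi x h5.le
    rw [h6.1, h6.2]
    unfold sg
    by_cases hv : v = 0
    · simp [hv, h5]
    · simp [hv]
  · have h6 := hC.fo x (by
      by_contra h
      exact h1 ⟨not_lt.1 h5, (not_le.1 h).le⟩)
    rw [h6.1, h6.2]
    simp [h5]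

theorem sum_sg (hS : (0 : ℤ) ∈ S) (hS1 : (1 : ℤ) ∈ S) (F : ℤ → ℝ) :
    ∑ l ∈ S, F l * sg l = F 0 - F 1 := by
  unfold sg
  simp only [mul_sub, Finset.sum_sub_distrib, mul_ite, mul_one, mul_zero]
  rw [Finset.sum_ite_eq' S 0 F, Finset.sum_ite_eq' S 1 F, if_pos hS, if_pos hS1]

/-- `y` has the level `n`. -/
def Lv (β : ℂ) (ρ₀ : ℝ) (n : ℤ) (y : ℂ) : Prop := ‖β‖ ^ n * ρ₀ ≤ ‖y‖ ∧ ‖y‖ < ‖β‖ ^ (n + 1) * ρ₀

theorem Lv_iff (hb : 1 < ‖β‖) (h0 : 0 < ρ₀) {n : ℤ} {y : ℂ} (h : Lv β ρ₀ n y) (k : ℤ) :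
    ‖β ^ k * y‖ < ρ₀ ↔ k + n < 0 := by
  have hb0 : 0 < ‖β‖ := by linarith
  rw [norm_mul, norm_zpow]
  have hk : 0 < ‖β‖ ^ k := zpow_pos hb0 k
  constructor
  · intro h1
    by_contra h2
    have h3 : ‖β‖ ^ k * (‖β‖ ^ n * ρ₀) ≤ ‖β‖ ^ k * ‖y‖ := mul_le_mul_of_nonneg_left h.1 hk.le
    rw [← mul_assoc, ← zpow_add₀ hb0.ne'] at h3
    have h4 : (1 : ℝ) ≤ ‖β‖ ^ (k + n) := one_le_zpow₀ hb.le (by omega)
    nlinarith
  · intro h1
    have h3 : ‖β‖ ^ k * ‖y‖ < ‖β‖ ^ k * (‖β‖ ^ (n + 1) * ρ₀) := mul_lt_mul_of_pos_left h.2 hk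
    rw [← mul_assoc, ← zpow_add₀ hb0.ne'] at h3
    have h4 : ‖β‖ ^ (k + (n + 1)) ≤ 1 := zpow_le_one_of_nonpos₀ hb.le (by omega)
    nlinarith

theorem Lv_shift (hb : 1 < ‖β‖) {n : ℤ} {y : ℂ} (h : Lv β ρ₀ n y) (k : ℤ) :
    Lv β ρ₀ (n + k) (β ^ k * y) := by
  have hb0 : 0 < ‖β‖ := by linarith
  have hk : 0 < ‖β‖ ^ k := zpow_pos hb0 k
  unfold Lv
  rw [norm_mul, norm_zpow]
  constructor
  · have h3 : ‖β‖ ^ k * (‖β‖ ^ n * ρ₀) ≤ ‖β‖ ^ k * ‖y‖ := mul_le_mul_of_nonneg_left h.1 hk.le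
    rwa [← mul_assoc, ← zpow_add₀ hb0.ne', add_comm k n] at h3
  · have h3 : ‖β‖ ^ k * ‖y‖ < ‖β‖ ^ k * (‖β‖ ^ (n + 1) * ρ₀) := mul_lt_mul_of_pos_left h.2 hk
    rwa [← mul_assoc, ← zpow_add₀ hb0.ne', show k + (n + 1) = n + k + 1 by ring] at h3

theorem Lv_unique (hb : 1 < ‖β‖) (h0 : 0 < ρ₀) {n k : ℤ} {y : ℂ} (h : Lv β ρ₀ n y)
    (h' : Lv β ρ₀ k y) : n = k := by
  have h1 := (Lv_iff hb h0 h (-n)).symm.trans (Lv_iff hb h0 h' (-n))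
  have h2 := (Lv_iff hb h0 h (-k)).symm.trans (Lv_iff hb h0 h' (-k))
  omega

theorem Lv_exists (hb : 1 < ‖β‖) (h0 : 0 < ρ₀) {y : ℂ} (hy : y ≠ 0) : ∃ n, Lv β ρ₀ n y := by
  obtain ⟨n, hn⟩ := exists_mem_Ico_zpow (div_pos (norm_pos_iff.2 hy) h0) hb
  exact ⟨n, (le_div_iff₀ h0).1 hn.1, (div_lt_iff₀ h0).1 hn.2⟩

theorem Lv_A (hP : Par β Γ m r₁ r₂ ρ₀ ρ₁ u) {x : ℂ} (hx : ρ₀ ≤ ‖x‖ ∧ ‖x‖ ≤ ρ₁) :
    Lv β ρ₀ 0 x := by
  refine ⟨by simpa using hx.1, ?_⟩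
  have := hP.ann
  simp only [zero_add, zpow_one]
  linarith [hx.2]

theorem B_low (hP : Par β Γ m r₁ r₂ ρ₀ ρ₁ u) {x : ℂ} (hx : ‖x - u‖ ≤ r₂) :
    ‖β‖ ^ (m - 1) * ρ₁ < ‖x‖ := by
  have h1 := hP.h1
  have h2 : ‖u‖ ≤ ‖x‖ + ‖x - u‖ := by
    have := norm_sub_le x (x - u)
    simpa using this
  linarith

theorem Lv_B (hP : Par β Γ m r₁ r₂ ρ₀ ρ₁ u) {x : ℂ} (hx : ‖x - u‖ ≤ r₂) :
    Lv β ρ₀ (m - 1) x := by
  have hb0 : 0 < ‖β‖ := by linarith [hP.one]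
  have hk : 0 < ‖β‖ ^ (m - 1) := zpow_pos hb0 _
  have h1 := B_low hP hx
  have h2 := hP.h2
  have h3 : ‖x‖ ≤ ‖x - u‖ + ‖u‖ := by
    have := norm_add_le (x - u) u
    simpa using this
  refine ⟨?_, ?_⟩
  · nlinarith [hP.lt]
  · rw [sub_add_cancel]
    linarith

theorem B_gt (hP : Par β Γ m r₁ r₂ ρ₀ ρ₁ u) {x : ℂ} (hx : ‖x - u‖ ≤ r₂) : ρ₁ < ‖x‖ := by
  have h1 := B_low hP hx
  have h4 : (1 : ℝ) ≤ ‖β‖ ^ (m - 1) := one_le_zpow₀ hP.one.le (by linarith [hP.hm])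
  have h5 := hP.pos
  have h6 := hP.lt
  nlinarith

theorem zdisj (hP : Par β Γ m r₁ r₂ ρ₀ ρ₁ u) {y : ℂ} (hy : y ∈ ZZ ρ₀ ρ₁ r₂ u) {j : ℤ}
    (hj : j ≠ 0) : β ^ j * y ∉ ZZ ρ₀ ρ₁ r₂ u := by
  have hb := hP.one
  have hb0 : 0 < ‖β‖ := by linarith
  have h0 := hP.pos
  intro h
  rcases hy with hA | hB
  · rcases h with hA' | hB'
    · have := Lv_unique hb h0 (Lv_shift hb (Lv_A hP hA) j) (Lv_A hP hA')
      omega
    · have h1 := Lv_unique hb h0 (Lv_shift hb (Lv_A hP hA) j) (Lv_B hP hB')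
      have h2 := B_low hP hB'
      rw [norm_mul, norm_zpow, show j = m - 1 by omega] at h2
      have hk : 0 < ‖β‖ ^ (m - 1) := zpow_pos hb0 _
      nlinarith [hA.2]
  · rcases h with hA' | hB'
    · have h1 := Lv_unique hb h0 (Lv_shift hb (Lv_B hP hB) j) (Lv_A hP hA')
      have h2 := B_low hP hB
      have h3 := hA'.2
      rw [norm_mul, norm_zpow, show j = -(m - 1) by omega, zpow_neg, inv_mul_le_iff₀
        (zpow_pos hb0 _)] at h3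
      linarith
    · have := Lv_unique hb h0 (Lv_shift hb (Lv_B hP hB) j) (Lv_B hP hB')
      omega

theorem znz (hP : Par β Γ m r₁ r₂ ρ₀ ρ₁ u) {y : ℂ} (hy : y ∈ ZZ ρ₀ ρ₁ r₂ u) : y ≠ 0 := by
  rintro rfl
  have h0 := hP.pos
  have h1 := hP.lt
  rcases hy with hA | hB
  · have := hA.1
    rw [norm_zero] at this
    linarith
  · have := B_gt hP hB
    rw [norm_zero] at this
    linarith

theorem mul0 (hP : Par β Γ m r₁ r₂ ρ₀ ρ₁ u) (k : ℤ) (v : ℂ) : β ^ k * v = 0 ↔ v = 0 := by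
  have hb : β ≠ 0 := by
    rintro rfl
    have := hP.one
    rw [norm_zero] at this
    linarith
  simp [zpow_ne_zero k hb]

theorem zone (hP : Par β Γ m r₁ r₂ ρ₀ ρ₁ u) (hC : Cut ρ₀ ρ₁ f g)
    (hI : IslK Γ S m r₁ r₂ R Λ) {y : ℂ} (hy : y ∈ ZZ ρ₀ ρ₁ r₂ u) (j : ℤ) (v : ℂ) :
    KK β f g u S R m (β ^ (-j) * y) (β ^ (-j) * v) = TT f g u R m ρ₁ j y v := by
  have hb := hP.one
  have h0 := hP.pos
  have hβ : β ≠ 0 := by
    rintro rfl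
    rw [norm_zero] at hb
    linarith
  have hmul : ∀ (l : ℤ) (z : ℂ), β ^ l * (β ^ (-j) * z) = β ^ (l - j) * z := by
    intro l z
    rw [← mul_assoc, ← zpow_add₀ hβ, sub_eq_add_neg]
  set I : Finset ℤ := insert 0 (insert 1 (insert m S)) with hIdef
  have hEE0 : j ∉ I → EE f g u R m j y v = 0 := by
    intro hj
    simp only [hIdef, Finset.mem_insert, not_or] at hj
    obtain ⟨j0, j1, jm, jS⟩ := hj
    unfold EE
    rw [hI.labs j jS, if_neg (fun h => jm h.1), if_neg j0, if_neg j1]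
    simp
  have hterm : ∀ l ∈ I, EE f g u R m l (β ^ (l - j) * y) (β ^ (l - j) * v) =
      (if l = j then EE f g u R m j y v else 0) +
        (if v = 0 ∧ l ≠ j ∧ ‖β ^ (l - j) * y‖ < ρ₀ then 1 else 0) * sg l := by
    intro l _
    by_cases hl : l = j
    · subst hl
      simp
    · rw [if_neg hl, EE_out hP hC hI (zdisj hP hy (sub_ne_zero.2 hl)), zero_add, ite_mul,
        one_mul, zero_mul]
      refine if_congr ?_ rfl rfl
      constructor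
      · rintro ⟨a, b⟩
        exact ⟨(mul0 hP _ _).1 a, hl, b⟩
      · rintro ⟨a, _, b⟩
        exact ⟨(mul0 hP _ _).2 a, b⟩
  unfold KK
  simp only [hmul]
  rw [← hIdef, Finset.sum_congr rfl hterm, Finset.sum_add_distrib,
    sum_sg (by simp [hIdef]) (by simp [hIdef])
      (fun l => if v = 0 ∧ l ≠ j ∧ ‖β ^ (l - j) * y‖ < ρ₀ then (1 : ℝ) else 0),
    Finset.sum_ite_eq' I j]
  have hfirst : (if j ∈ I then EE f g u R m j y v else 0) = EE f g u R m j y v := by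
    split_ifs with h
    · rfl
    · exact (hEE0 h).symm
  rw [hfirst]
  unfold TT
  congr 1
  have hm := hP.hm
  by_cases hv : v = 0
  · simp only [hv, true_and, and_true]
    rcases hy with hA | hB
    · have hL := Lv_A hP hA
      rw [if_pos hA.2]
      simp only [Lv_iff hb h0 hL]
      split_ifs <;> first | omega | norm_num
    · have hL := Lv_B hP hB
      have h3 := B_gt hP hB
      rw [if_neg (not_le.2 h3)]
      simp only [Lv_iff hb h0 hL]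
      split_ifs <;> first | omega | norm_num
  · simp [hv]

theorem pureK (hP : Par β Γ m r₁ r₂ ρ₀ ρ₁ u) (hC : Cut ρ₀ ρ₁ f g)
    (hI : IslK Γ S m r₁ r₂ R Λ) {x : ℂ} (hx : ∀ l ∈ insert 0 (insert 1 (insert m S)),
      β ^ l * x ∉ ZZ ρ₀ ρ₁ r₂ u) (v : ℂ) :
    KK β f g u S R m x v = (if v = 0 ∧ ‖x‖ < ρ₀ then 1 else 0) -
      (if v = 0 ∧ ‖β * x‖ < ρ₀ then 1 else 0) := by
  unfold KK
  set I : Finset ℤ := insert 0 (insert 1 (insert m S)) with hIdef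
  have hterm : ∀ l ∈ I, EE f g u R m l (β ^ l * x) (β ^ l * v) =
      (if v = 0 ∧ ‖β ^ l * x‖ < ρ₀ then 1 else 0) * sg l := by
    intro l hl
    rw [EE_out hP hC hI (hx l hl), ite_mul, one_mul, zero_mul]
    exact if_congr (and_congr_left fun _ => mul0 hP _ _) rfl rfl
  rw [Finset.sum_congr rfl hterm, sum_sg (by simp [hIdef]) (by simp [hIdef])
      (fun l => if v = 0 ∧ ‖β ^ l * x‖ < ρ₀ then (1 : ℝ) else 0)]
  simp

theorem pure' (hP : Par β Γ m r₁ r₂ ρ₀ ρ₁ u) (hC : Cut ρ₀ ρ₁ f g)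
    (hI : IslK Γ S m r₁ r₂ R Λ) {x : ℂ} (hx : ∀ j : ℤ, β ^ j * x ∉ ZZ ρ₀ ρ₁ r₂ u) (v : ℂ) :
    KK β f g u S R m x v = if v = 0 then cc β ρ₀ x else 0 := by
  rw [pureK hP hC hI (fun l _ => hx l)]
  unfold cc
  have h1 : ‖x‖ ≤ ‖β * x‖ := by
    rw [norm_mul]
    nlinarith [hP.one, norm_nonneg x]
  by_cases hv : v = 0
  · simp only [hv, true_and, if_true]
    by_cases h2 : ‖β * x‖ < ρ₀
    · rw [if_pos h2, if_pos (lt_of_le_of_lt h1 h2), if_neg (fun h => absurd h2 (not_lt.2 h.1))]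
      norm_num
    · rw [if_neg h2]
      by_cases h3 : ‖x‖ < ρ₀
      · rw [if_pos h3, if_pos ⟨not_lt.1 h2, h3⟩]
        norm_num
      · rw [if_neg h3, if_neg (fun h => h3 h.2)]
        norm_num
  · simp [hv]

theorem csum (hb : 1 < ‖β‖) (h0 : 0 < ρ₀) {x : ℂ} (hx : x ≠ 0) :
    ∑ᶠ i : ℤ, cc β ρ₀ (β ^ (-i) * x) = 1 := by
  have hβ : β ≠ 0 := by
    rintro rfl
    rw [norm_zero] at hb
    linarith
  obtain ⟨n, hn⟩ := Lv_exists hb h0 hx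
  have key : ∀ i : ℤ, cc β ρ₀ (β ^ (-i) * x) = if i = n + 1 then 1 else 0 := by
    intro i
    unfold cc
    refine if_congr ?_ rfl rfl
    rw [← mul_assoc, ← zpow_one_add₀ hβ, ← not_lt, Lv_iff hb h0 hn, Lv_iff hb h0 hn]
    omega
  rw [finsum_congr key, finsum_eq_single _ (n + 1)]
  · simp
  · intro i hi
    simp [hi]

theorem smoothK (hC : Cut ρ₀ ρ₁ f g) (hI : IslK Γ S m r₁ r₂ R Λ) (v : ℂ) :
    ContDiff ℝ ∞ (fun x => KK β f g u S R m x v) := by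
  unfold KK
  refine ContDiff.sum fun l _ => ?_
  have hl : ContDiff ℝ ∞ (fun x : ℂ => β ^ l * x) := contDiff_const.mul contDiff_id
  have hlu : ContDiff ℝ ∞ (fun x : ℂ => β ^ l * x - u) := hl.sub contDiff_const
  have hci : ContDiff ℝ ∞ (fun x : ℂ => ci f g u (β ^ l * x) (β ^ l * v)) := by
    unfold ci
    refine ContDiff.add (ContDiff.add ?_ ?_) ?_
    · split_ifs
      · exact (hC.fs.comp hl).sub (hC.fs.comp hlu)
      · exact contDiff_const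
    · split_ifs
      · exact hC.gs.comp hl
      · exact contDiff_const
    · split_ifs
      · exact hC.gs.comp hlu
      · exact contDiff_const
  unfold EE
  refine ContDiff.sub (ContDiff.add (ContDiff.sub ?_ contDiff_const) ?_) ?_
  · exact (hI.smooth l (β ^ l * v)).comp hlu
  · split_ifs
    · exact hci
    · exact contDiff_const
  · split_ifs
    · exact hci
    · exact contDiff_const

theorem near (hP : Par β Γ m r₁ r₂ ρ₀ ρ₁ u) (hC : Cut ρ₀ ρ₁ f g)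
    (hI : IslK Γ S m r₁ r₂ R Λ) : ∃ ε, 0 < ε ∧ ∀ x v, ‖x‖ ≤ ε → KK β f g u S R m x v = 0 := by
  have hb0 : 0 < ‖β‖ := by linarith [hP.one]
  set I : Finset ℤ := insert 0 (insert 1 (insert m S)) with hIdef
  set C : ℝ := ∑ l ∈ I, ‖β‖ ^ l with hCdef
  have hle : ∀ l ∈ I, ‖β‖ ^ l ≤ C := fun l hl =>
    Finset.single_le_sum (f := fun l : ℤ => ‖β‖ ^ l) (fun i _ => (zpow_pos hb0 i).le) hl
  have hCpos : 0 < C := lt_of_lt_of_le (zpow_pos hb0 0) (hle 0 (by simp [hIdef]))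
  have hr : 0 < ‖u‖ - r₂ := by
    have h1 := hP.h1
    have h2 : 0 < ‖β‖ ^ (m - 1) * ρ₁ := mul_pos (zpow_pos hb0 _) (by linarith [hP.pos, hP.lt])
    linarith
  have hmin : 0 < min ρ₀ (‖u‖ - r₂) := lt_min hP.pos hr
  refine ⟨min ρ₀ (‖u‖ - r₂) / (2 * C), by positivity, fun x v hx => ?_⟩
  have hall : ∀ l ∈ I, ‖β ^ l * x‖ < min ρ₀ (‖u‖ - r₂) := by
    intro l hl
    rw [norm_mul, norm_zpow]
    have h1 : ‖β‖ ^ l * ‖x‖ ≤ C * (min ρ₀ (‖u‖ - r₂) / (2 * C)) :=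
      mul_le_mul (hle l hl) hx (norm_nonneg x) hCpos.le
    have h2 : C * (min ρ₀ (‖u‖ - r₂) / (2 * C)) = min ρ₀ (‖u‖ - r₂) / 2 := by
      field_simp
    linarith
  have hnot : ∀ l ∈ I, β ^ l * x ∉ ZZ ρ₀ ρ₁ r₂ u := by
    intro l hl h
    have h1 := hall l hl
    have h2 := lt_of_lt_of_le h1 (min_le_left _ _)
    have h3 := lt_of_lt_of_le h1 (min_le_right _ _)
    rcases h with h | h
    · linarith [h.1]
    · have h4 : ‖u‖ ≤ ‖β ^ l * x‖ + ‖β ^ l * x - u‖ := by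
        have := norm_sub_le (β ^ l * x) (β ^ l * x - u)
        simpa using this
      linarith [show ‖β ^ l * x - u‖ ≤ r₂ from h]
  rw [pureK hP hC hI hnot]
  have h1 := lt_of_lt_of_le (hall 0 (by simp [hIdef])) (min_le_left _ _)
  have h2 := lt_of_lt_of_le (hall 1 (by simp [hIdef])) (min_le_left _ _)
  rw [zpow_zero, one_mul] at h1
  rw [zpow_one] at h2
  simp only [h1, h2, and_true, sub_self]

theorem far (hP : Par β Γ m r₁ r₂ ρ₀ ρ₁ u) (hC : Cut ρ₀ ρ₁ f g)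
    (hI : IslK Γ S m r₁ r₂ R Λ) : ∃ R', ∀ x v, R' ≤ ‖x‖ → KK β f g u S R m x v = 0 := by
  have hb0 : 0 < ‖β‖ := by linarith [hP.one]
  set I : Finset ℤ := insert 0 (insert 1 (insert m S)) with hIdef
  set C : ℝ := ∑ l ∈ I, ‖β‖ ^ (-l) with hCdef
  have hle : ∀ l ∈ I, ‖β‖ ^ (-l) ≤ C := fun l hl =>
    Finset.single_le_sum (f := fun l : ℤ => ‖β‖ ^ (-l)) (fun i _ => (zpow_pos hb0 (-i)).le) hl
  have hCpos : 0 < C := lt_of_lt_of_le (zpow_pos hb0 (-0)) (hle 0 (by simp [hIdef]))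
  refine ⟨C * (max ρ₁ (‖u‖ + r₂) + 1), fun x v hx => ?_⟩
  have hρ₁ : 0 < ρ₁ := by linarith [hP.pos, hP.lt]
  have hM : 0 < max ρ₁ (‖u‖ + r₂) := lt_of_lt_of_le hρ₁ (le_max_left _ _)
  have hall : ∀ l ∈ I, max ρ₁ (‖u‖ + r₂) < ‖β ^ l * x‖ := by
    intro l hl
    rw [norm_mul, norm_zpow]
    have h1 : ‖β‖ ^ (-l) * (max ρ₁ (‖u‖ + r₂) + 1) ≤ ‖x‖ :=
      le_trans (mul_le_mul_of_nonneg_right (hle l hl) (by linarith)) hx
    have h2 : ‖β‖ ^ l * (‖β‖ ^ (-l) * (max ρ₁ (‖u‖ + r₂) + 1)) ≤ ‖β‖ ^ l * ‖x‖ :=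
      mul_le_mul_of_nonneg_left h1 (zpow_pos hb0 l).le
    rw [← mul_assoc, ← zpow_add₀ hb0.ne', add_neg_cancel, zpow_zero, one_mul] at h2
    linarith
  have hnot : ∀ l ∈ I, β ^ l * x ∉ ZZ ρ₀ ρ₁ r₂ u := by
    intro l hl h
    have h1 := hall l hl
    have h2 := lt_of_le_of_lt (le_max_left _ _) h1
    have h3 := lt_of_le_of_lt (le_max_right _ _) h1
    rcases h with h | h
    · linarith [h.2]
    · have h4 : ‖β ^ l * x‖ ≤ ‖β ^ l * x - u‖ + ‖u‖ := by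
        have := norm_add_le (β ^ l * x - u) u
        simpa using this
      linarith [show ‖β ^ l * x - u‖ ≤ r₂ from h]
  rw [pureK hP hC hI hnot]
  have h1 := lt_of_le_of_lt (le_max_left _ _) (hall 0 (by simp [hIdef]))
  have h2 := lt_of_le_of_lt (le_max_left _ _) (hall 1 (by simp [hIdef]))
  rw [zpow_zero, one_mul] at h1
  rw [zpow_one] at h2
  have h3 : ¬ ‖x‖ < ρ₀ := by
    intro h
    linarith [hP.lt]
  have h4 : ¬ ‖β * x‖ < ρ₀ := by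
    intro h
    linarith [hP.lt]
  rw [if_neg (fun h => h3 h.2), if_neg (fun h => h4 h.2), sub_zero]

/-- **KZ**. -/
theorem hKZ : StKZ := by
  intro β Γ S m r₁ r₂ ρ₀ ρ₁ R Λ u f g hP hC hI
  exact ⟨fun y hy j hj => zdisj hP hy hj, fun y hy => znz hP hy, fun v => smoothK hC hI v,
    fun y hy j v => zone hP hC hI hy j v, fun x _ hx v => pure' hP hC hI hx v,
    fun x hx0 _ => csum hP.one hP.pos hx0, near hP hC hI, far hP hC hI⟩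

end Pool.Agent.Helper51.ISL
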